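import Pool.Agent.W770.KP.Stm

set_option autoImplicit false

open scoped Classical

namespace Pool.Agent.W409.KP

open Pool.Agent.W770.KP

theorem hom : S_HOM := by
  intro F _ m e A hA
  have hle : ∀ β ∈ A.support, β.degree ≤ e := by
    intro β hβ
    have h := MvPolynomial.le_totalDegree hβ
    have h2 : β.degree = β.sum fun _ k => k := rfl
    rw [h2]
    exact h.trans hA
  refine ⟨∑ β ∈ A.support, MvPolynomial.monomial (Finsupp.cons (e - β.degree) β) (A.coeff β),
    ?_, ?_⟩
  · refine MvPolynomial.IsHomogeneous.sum _ _ _ fun β hβ => ?_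
    apply MvPolynomial.isHomogeneous_monomial
    have h := hle β hβ
    rw [Finsupp.degree_eq_sum, Fin.sum_univ_succ, Finsupp.cons_zero]
    simp only [Finsupp.cons_succ]
    rw [← Finsupp.degree_eq_sum]
    omega
  · unfold dehom
    rw [map_sum]
    conv_rhs => rw [A.as_sum]
    refine Finset.sum_congr rfl fun β _ => ?_
    rw [MvPolynomial.aeval_monomial, Finsupp.prod_fintype _ _ (fun i => pow_zero _),
      Fin.prod_univ_succ, Fin.cons_zero, one_pow, one_mul]
    simp only [Fin.cons_succ, Finsupp.cons_succ]
    rw [MvPolynomial.monomial_eq, Finsupp.prod_fintype _ _ (fun i => pow_zero _)]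
    rfl

end Pool.Agent.W409.KP
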